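import Pool.Agent.Q189.HG.Base

/-!
# Hypergeometric families are connected
-/

set_option autoImplicit false

open PowerSeries

namespace Pool.Agent.Q189.HG

open Pool.Agent.Y119.HY (QD Am Jm cm Hf Hc tv om)
open Pool.Agent.Y119.HZ (Hp hf ix evq isom_inv isom_mul)
open Pool.Agent.Y113 (SDc)
open Pool.Agent.Y120.GH (cx Cw ou)

variable {n : ℕ} {Q : Polynomial ℚ}

section paths

open Matrix

/-- the matrices which are joined with `1` by a polynomial curve in the group -/
def Paths (J : Matrix (Fin n) (Fin n) ℂ) : Submonoid (Matrix (Fin n) (Fin n) ℂ) where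
  carrier := {g | ∃ Γ : Matrix (Fin n) (Fin n) (Polynomial ℂ), Γ.map (Polynomial.eval 0) = 1 ∧
    Γ.map (Polynomial.eval 1) = g ∧ ∀ s : ℂ, (Γ.map (Polynomial.eval s)).transpose * J * Γ.map (Polynomial.eval s) = J}
  mul_mem' := by
    rintro g h ⟨Γ, h1, h2, h3⟩ ⟨Δ, h4, h5, h6⟩
    have hm : ∀ s, (Γ * Δ).map (Polynomial.eval s) = Γ.map (Polynomial.eval s) * Δ.map (Polynomial.eval s) :=
      fun s => Pool.Agent.Y119.HY.map_mul_eval _ _ s
    refine ⟨Γ * Δ, by rw [hm, h1, h4, one_mul], by rw [hm, h2, h5], fun s => ?_⟩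
    rw [hm]
    exact isom_mul (h3 s) (h6 s)
  one_mem' := by
    have h1 : ∀ s : ℂ, (1 : Matrix (Fin n) (Fin n) (Polynomial ℂ)).map (Polynomial.eval s) = 1 := fun s =>
      Matrix.map_one _ (Polynomial.eval_zero) (Polynomial.eval_one)
    refine ⟨1, h1 0, h1 1, fun s => ?_⟩
    rw [h1]
    simp

theorem tv_path {J : Matrix (Fin n) (Fin n) ℂ} (hJ : J.transpose = -J) (v : Fin n → ℂ) (c : ℂ) :
    tv J v c ∈ Paths J := by
  set Γ : Matrix (Fin n) (Fin n) (Polynomial ℂ) :=
    1 + (Polynomial.X * Polynomial.C c : Polynomial ℂ) • (vecMulVec v (v ᵥ* J)).map Polynomial.C with hΓ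
  have hΓe : ∀ s : ℂ, Γ.map (Polynomial.eval s) = tv J v (s * c) := by
    intro s
    ext i j
    unfold tv
    rw [hΓ]
    simp only [Matrix.map_apply, Matrix.add_apply, Matrix.smul_apply, smul_eq_mul, vecMulVec_apply,
      Polynomial.eval_add, Polynomial.eval_mul, Polynomial.eval_X, Polynomial.eval_C]
    congr 1
    rw [Matrix.one_apply, Matrix.one_apply]
    split_ifs <;> simp
  refine ⟨Γ, ?_, ?_, fun s => ?_⟩
  · rw [hΓe, zero_mul]
    unfold tv
    simp
  · rw [hΓe, one_mul]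
  · rw [hΓe]
    exact Pool.Agent.Y119.HY.tv_isom hJ v _

theorem path {J : Matrix (Fin n) (Fin n) ℂ} (hJ : J.transpose = -J) (hdet : J.det ≠ 0) (g : Matrix (Fin n) (Fin n) ℂ)
    (hg : g.transpose * J * g = J) : g ∈ Paths J := by
  set ω : (Fin n → ℂ) →ₗ[ℂ] (Fin n → ℂ) →ₗ[ℂ] ℂ := Matrix.toLinearMap₂' ℂ J with hω
  have hωa : ∀ u v, ω u v = om J u v := by
    intro u v
    rw [hω, Matrix.toLinearMap₂'_apply']
    rfl
  have h0 : ∀ v, ω v v = 0 := fun v => by rw [hωa, Pool.Agent.Y119.HY.om_self hJ]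
  have hnd : ∀ u, (∀ v, ω u v = 0) → u = 0 := by
    intro u hu
    have h1 : ∀ w : Fin n → ℂ, u ⬝ᵥ w = 0 := by
      intro w
      have h2 := hu (J⁻¹ *ᵥ w)
      rw [hωa] at h2
      unfold om at h2
      rw [mulVec_mulVec, mul_nonsing_inv _ (Ne.isUnit hdet), one_mulVec] at h2
      exact h2
    funext i
    have := h1 (Pi.single i 1)
    rwa [dotProduct_single_one] at this
  have hpres : ∀ u v, ω (Matrix.toLin' g u) (Matrix.toLin' g v) = ω u v := by
    intro u v
    rw [hωa, hωa, toLin'_apply, toLin'_apply]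
    unfold om
    rw [mulVec_mulVec, ← vecMul_transpose, ← dotProduct_mulVec, mulVec_mulVec, ← Matrix.mul_assoc, hg]
  have hmem := Pool.Agent.W948.ZC.TR.aux ℂ _ (Fin n → ℂ) ω rfl h0 hnd (Matrix.toLin' g) hpres
  have key : ∀ T ∈ Pool.Agent.W948.ZC.TR.G ω, LinearMap.toMatrix' T ∈ Paths J := by
    intro T hT
    unfold Pool.Agent.W948.ZC.TR.G at hT
    induction hT using Submonoid.closure_induction with
    | mem T h =>
      obtain ⟨c, u, rfl⟩ := h
      have h1 : LinearMap.toMatrix' (1 + c • (ω u).smulRight u) = tv J u c := by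
        apply (Matrix.toLin'.injective)
        rw [toLin'_toMatrix']
        ext x i
        have h2 : (Matrix.toLin' (tv J u c)) (Pi.single x 1) = tv J u c *ᵥ (Pi.single x 1) := rfl
        rw [LinearMap.comp_apply, LinearMap.comp_apply, LinearMap.single_apply, h2, Pool.Agent.Y119.HY.tv_mulVec, ← hωa]
        simp [LinearMap.add_apply, mul_assoc]
      rw [h1]
      exact tv_path hJ _ c
    | one =>
      have : LinearMap.toMatrix' (1 : Module.End ℂ (Fin n → ℂ)) = 1 := LinearMap.toMatrix'_id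
      rw [this]
      exact one_mem _
    | mul A B _ _ hA hB =>
      have : LinearMap.toMatrix' (A * B) = LinearMap.toMatrix' A * LinearMap.toMatrix' B :=
        LinearMap.toMatrix'_mul A B
      rw [this]
      exact mul_mem hA hB
  have := key _ hmem
  rwa [LinearMap.toMatrix'_toLin'] at this

end paths

/-- polynomials with an algebraic quotient have a constant quotient -/
theorem ratio (P : Polynomial ℂ) (hP : P ≠ 0) (f g : Polynomial ℂ)
    (h : ∑ i ∈ Finset.range (P.natDegree + 1), Polynomial.C (P.coeff i) * (f ^ i * g ^ (P.natDegree - i)) = 0) (s t : ℂ) :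
    f.eval s * g.eval t = f.eval t * g.eval s := by
  have hsplit := IsAlgClosed.splits P
  have hfac := hsplit.eq_prod_roots
  by_cases hg : g = 0
  · rw [hg] at h ⊢
    simp
  -- in the field of rational functions
  set K := FractionRing (Polynomial ℂ)
  set φ := algebraMap (Polynomial ℂ) K with hφ
  have hinj : Function.Injective φ := IsFractionRing.injective (Polynomial ℂ) K
  have hg0 : φ g ≠ 0 := fun h0 => hg (hinj (by rw [h0, map_zero]))
  have h1 : Polynomial.aeval (φ f / φ g) P = 0 := by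
    rw [Polynomial.aeval_eq_sum_range]
    have h2 := congrArg φ h
    rw [map_sum, map_zero] at h2
    have h3 : ∀ i ∈ Finset.range (P.natDegree + 1), P.coeff i • (φ f / φ g) ^ i =
        φ (Polynomial.C (P.coeff i) * (f ^ i * g ^ (P.natDegree - i))) / φ g ^ P.natDegree := by
      intro i hi
      rw [Finset.mem_range] at hi
      rw [map_mul, map_mul, map_pow, map_pow, Algebra.smul_def, div_pow, eq_div_iff (pow_ne_zero _ hg0)]
      have h4 : φ g ^ P.natDegree = φ g ^ i * φ g ^ (P.natDegree - i) := by rw [← pow_add]; congr 1; omega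
      rw [h4]
      have h5 : algebraMap ℂ K (P.coeff i) = φ (Polynomial.C (P.coeff i)) := rfl
      rw [h5]
      have h6 : φ f ^ i / φ g ^ i * φ g ^ i = φ f ^ i := div_mul_cancel₀ _ (pow_ne_zero _ hg0)
      linear_combination (φ (Polynomial.C (P.coeff i)) * φ g ^ (P.natDegree - i)) * h6
    rw [Finset.sum_congr rfl h3, ← Finset.sum_div, h2, zero_div]
  rw [hfac, map_mul, Polynomial.aeval_C] at h1
  have hlc : algebraMap ℂ K P.leadingCoeff ≠ 0 := by
    rw [Ne, FaithfulSMul.algebraMap_eq_zero_iff]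
    exact Polynomial.leadingCoeff_ne_zero.2 hP
  have h2 := (mul_eq_zero.1 h1).resolve_left hlc
  rw [← Multiset.prod_hom, Multiset.prod_eq_zero_iff] at h2
  rw [Multiset.map_map, Multiset.mem_map] at h2
  obtain ⟨ρ, -, hρ⟩ := h2
  simp only [Function.comp_apply, map_sub, Polynomial.aeval_X, Polynomial.aeval_C] at hρ
  rw [sub_eq_zero, div_eq_iff hg0] at hρ
  have h3 : f = Polynomial.C ρ * g := by
    apply hinj
    rw [hρ, map_mul]
    rfl
  rw [h3]
  simp only [Polynomial.eval_mul, Polynomial.eval_C]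
  ring

/-- polynomials as functions of the point -/
noncomputable def vp (R : MvPolynomial (Fin (n * n)) (Polynomial ℚ)) (X : Matrix (Fin n) (Fin n) ℂ) : Polynomial ℂ :=
  MvPolynomial.eval₂ (Polynomial.mapRingHom (algebraMap ℚ ℂ)) (fun a => Polynomial.C (X (ix n a).1 (ix n a).2)) R

/-- polynomials as functions on a curve -/
noncomputable def vc (R : MvPolynomial (Fin (n * n)) (Polynomial ℚ)) (x : ℂ) (Γ : Matrix (Fin n) (Fin n) (Polynomial ℂ)) :
    Polynomial ℂ :=
  MvPolynomial.eval₂ (Polynomial.C.comp (evq x)) (fun a => Γ (ix n a).1 (ix n a).2) R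

lemma eval_vp (R : MvPolynomial (Fin (n * n)) (Polynomial ℚ)) (X : Matrix (Fin n) (Fin n) ℂ) (z : ℂ) :
    (vp R X).eval z = MvPolynomial.eval₂ (evq z) (fun a => X (ix n a).1 (ix n a).2) R := by
  rw [vp, ← Polynomial.coe_evalRingHom, MvPolynomial.hom_eval₂]
  have h1 : (Polynomial.evalRingHom z).comp (Polynomial.mapRingHom (algebraMap ℚ ℂ)) = evq z := by
    refine Polynomial.ringHom_ext (fun a => ?_) ?_
    · simp [Pool.Agent.Y119.HZ.evq]
    · simp [Pool.Agent.Y119.HZ.evq]
  rw [h1]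
  congr 1
  funext a
  simp

lemma eval_vc (R : MvPolynomial (Fin (n * n)) (Polynomial ℚ)) (x : ℂ) (Γ : Matrix (Fin n) (Fin n) (Polynomial ℂ)) (s : ℂ) :
    (vc R x Γ).eval s = (vp R (Γ.map (Polynomial.eval s))).eval x := by
  rw [eval_vp, vc, ← Polynomial.coe_evalRingHom, MvPolynomial.hom_eval₂]
  have h1 : (Polynomial.evalRingHom s).comp (Polynomial.C.comp (evq x)) = evq x := by
    refine RingHom.ext fun a => ?_
    simp
  rw [h1]
  rfl

/-- **hypergeometric families are connected** -/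
theorem conn_hf (hQ : QD n Q) (hH : ∀ i j, SDc (Hp n Q i j)) : Pool.Agent.Y118.UL.Conn (hf n Q) := by
  classical
  obtain ⟨K, hK, hs⟩ := size_hf hH
  have hK0 : 0 ≤ K := by linarith
  intro A B halg
  set φ := algebraMap ℚ⟦X⟧ (FractionRing ℚ⟦X⟧) with hφ
  have hinj : Function.Injective φ := IsFractionRing.injective ℚ⟦X⟧ (FractionRing ℚ⟦X⟧)
  by_cases hB : MvPolynomial.aeval (hf n Q) B = 0
  · refine ⟨0, 1, one_ne_zero, ?_⟩
    rw [hB]
    simp
  have hB0 : φ (MvPolynomial.aeval (hf n Q) B) ≠ 0 := fun h0 => hB (hinj (by rw [h0, map_zero]))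
  obtain ⟨P, hP0, hP⟩ := halg
  set m := P.natDegree with hm
  set a := MvPolynomial.aeval (hf n Q) A with ha
  set b := MvPolynomial.aeval (hf n Q) B with hb
  -- the relation
  set R : MvPolynomial (Fin (n * n)) (Polynomial ℚ) :=
    ∑ i ∈ Finset.range (m + 1), MvPolynomial.C (P.coeff i) * (A ^ i * B ^ (m - i)) with hR
  have hR0 : MvPolynomial.aeval (hf n Q) R = 0 := by
    apply hinj
    rw [map_zero]
    have h1 : φ (MvPolynomial.aeval (hf n Q) R) = Polynomial.aeval (φ a / φ b) P * φ b ^ m := by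
      rw [Polynomial.aeval_eq_sum_range, Finset.sum_mul, hR, map_sum, map_sum]
      refine Finset.sum_congr rfl fun i hi => ?_
      rw [Finset.mem_range] at hi
      rw [map_mul, map_mul, map_mul, map_mul, map_pow, map_pow, map_pow, map_pow, MvPolynomial.aeval_C, Algebra.smul_def,
        div_pow, ← IsScalarTower.algebraMap_apply (Polynomial ℚ) ℚ⟦X⟧ (FractionRing ℚ⟦X⟧)]
      have h4 : φ b ^ m = φ b ^ i * φ b ^ (m - i) := by rw [← pow_add]; congr 1; omega
      rw [h4, ← ha, ← hb]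
      have h6 : φ a ^ i / φ b ^ i * φ b ^ i = φ a ^ i := div_mul_cancel₀ _ (pow_ne_zero _ hB0)
      linear_combination -(algebraMap (Polynomial ℚ) (FractionRing ℚ⟦X⟧) (P.coeff i) * φ b ^ (m - i)) * h6
    rw [h1, hP, zero_mul]
  -- the specialisations
  have hX : ∀ X ∈ Iso n Q, ∀ x : ℂ, (vp R X).eval x = 0 := by
    intro X hX x
    rw [eval_vp]
    exact iso_sub_Vc hQ hK hs hX x R hR0
  -- the leading coefficient
  set p := P.leadingCoeff with hp
  have hp0 : p ≠ 0 := Polynomial.leadingCoeff_ne_zero.2 hP0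
  set pc : Polynomial ℂ := p.map (algebraMap ℚ ℂ) with hpc
  have hpc0 : pc ≠ 0 := (Polynomial.map_ne_zero_iff (algebraMap ℚ ℂ).injective).2 hp0
  have hratio : ∀ x : ℂ, pc.eval x ≠ 0 → ∀ X ∈ Iso n Q, ∀ Y ∈ Iso n Q,
      (vp A X).eval x * (vp B Y).eval x = (vp A Y).eval x * (vp B X).eval x := by
    intro x hx X hXi Y hYi
    obtain ⟨W, hW1, hW2, hW3⟩ := isom_inv (Pool.Agent.Y119.HY.Jc_det hQ) hXi
    obtain ⟨Γ, hΓ0, hΓ1, hΓ⟩ := path (Pool.Agent.Y119.HY.Jc_skew hQ) (Pool.Agent.Y119.HY.Jc_det hQ) (W * Y)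
      (isom_mul hW3 hYi)
    set Δ : Matrix (Fin n) (Fin n) (Polynomial ℂ) := X.map Polynomial.C * Γ with hΔ
    have hΔe : ∀ s : ℂ, Δ.map (Polynomial.eval s) = X * Γ.map (Polynomial.eval s) := by
      intro s
      rw [hΔ, Pool.Agent.Y119.HY.map_mul_eval, Pool.Agent.Y119.HY.map_C_eval]
    set Px : Polynomial ℂ := P.map (evq x) with hPx
    have hPxd : Px.natDegree = m := by
      rw [hPx, hm]
      refine Polynomial.natDegree_map_of_leadingCoeff_ne_zero _ ?_
      intro h0
      apply hx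
      rw [hpc, Polynomial.eval_map]
      exact h0
    have hPx0 : Px ≠ 0 := by
      intro h0
      have h1 : Px.coeff m = 0 := by rw [h0, Polynomial.coeff_zero]
      rw [hPx, Polynomial.coeff_map] at h1
      apply hx
      rw [hpc, Polynomial.eval_map]
      exact h1
    have h1 := ratio Px hPx0 (vc A x Δ) (vc B x Δ) (by
      refine Polynomial.funext fun s => ?_
      rw [Polynomial.eval_zero, Polynomial.eval_finsetSum, hPxd]
      have h2 := hX (Δ.map (Polynomial.eval s)) (by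
        rw [hΔe]
        exact isom_mul hXi (hΓ s)) x
      rw [eval_vp, hR, ← MvPolynomial.coe_eval₂Hom, map_sum] at h2
      rw [← h2]
      refine Finset.sum_congr rfl fun i _ => ?_
      rw [Polynomial.eval_mul, Polynomial.eval_mul, Polynomial.eval_pow, Polynomial.eval_pow, Polynomial.eval_C,
        eval_vc, eval_vc, eval_vp, eval_vp, map_mul, map_mul, map_pow, map_pow, MvPolynomial.coe_eval₂Hom,
        MvPolynomial.eval₂_C, hPx, Polynomial.coeff_map]) 0 1
    rw [eval_vc, eval_vc, eval_vc, eval_vc, hΔe, hΔe, hΓ0, hΓ1, Matrix.mul_one, ← Matrix.mul_assoc, hW1,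
      Matrix.one_mul] at h1
    exact h1
  -- the polynomial version
  have hpoly : ∀ X ∈ Iso n Q, ∀ Y ∈ Iso n Q, vp A X * vp B Y = vp A Y * vp B X := by
    intro X hXi Y hYi
    have h1 : pc * (vp A X * vp B Y - vp A Y * vp B X) = 0 := by
      refine Polynomial.funext fun x => ?_
      rw [Polynomial.eval_mul, Polynomial.eval_sub, Polynomial.eval_mul, Polynomial.eval_mul, Polynomial.eval_zero]
      by_cases hx : pc.eval x = 0
      · rw [hx, zero_mul]
      · rw [hratio x hx X hXi Y hYi, sub_self, mul_zero]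
    exact sub_eq_zero.1 ((mul_eq_zero.1 h1).resolve_left hpc0)
  have hcx : Function.Injective (cx : ℚ⟦X⟧ →+* PowerSeries ℂ) := by
    intro f g hfg
    ext i
    have h1 := congrArg (coeff i) hfg
    rw [Pool.Agent.Y120.GH.coeff_cx, Pool.Agent.Y120.GH.coeff_cx] at h1
    exact_mod_cast h1
  -- a point with nonvanishing denominator
  have hval : ∀ (R : MvPolynomial (Fin (n * n)) (Polynomial ℚ)) (t : ℂ), K < ‖t‖ →
      ou (cx (MvPolynomial.aeval (hf n Q) R)) t = (vp R (Mt n Q t)).eval (1 / t) := by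
    intro R t ht
    rw [(ou_aeval hK hs R).2 t ht, eval_vp]
  have hev : ∀ᶠ t : ℂ in nhds ((K + 1 : ℝ) : ℂ), K < ‖t‖ := by
    refine (isOpen_lt continuous_const continuous_norm).mem_nhds ?_
    show K < ‖((K + 1 : ℝ) : ℂ)‖
    rw [Complex.norm_real, Real.norm_of_nonneg (by linarith)]
    linarith
  obtain ⟨Y, hYi, hY⟩ : ∃ Y ∈ Iso n Q, vp B Y ≠ 0 := by
    by_contra hcon
    push Not at hcon
    apply hB
    apply hcx
    rw [map_zero]
    refine Pool.Agent.Y120.GH.ou_inj hK0 (ou_aeval hK hs B).1 (p := ((K + 1 : ℝ) : ℂ)) hev.self_of_nhds ?_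
    filter_upwards [hev] with t ht
    rw [hval B t ht, hcon _ (Mt_iso hQ hK hs ht), Polynomial.eval_zero]
  have hrel : ((vp B Y : Polynomial ℂ) : PowerSeries ℂ) * cx a = ((vp A Y : Polynomial ℂ) : PowerSeries ℂ) * cx b := by
    rw [← sub_eq_zero]
    refine Pool.Agent.Y120.GH.ou_inj hK0 (p := ((K + 1 : ℝ) : ℂ)) ?_ hev.self_of_nhds ?_
    · exact Subring.sub_mem _ (Subring.mul_mem _ (Pool.Agent.Y120.GH.poly_mem _) (ou_aeval hK hs A).1)
        (Subring.mul_mem _ (Pool.Agent.Y120.GH.poly_mem _) (ou_aeval hK hs B).1)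
    · filter_upwards [hev] with t ht
      have e1 : ((vp B Y : Polynomial ℂ) : PowerSeries ℂ) * cx a - ((vp A Y : Polynomial ℂ) : PowerSeries ℂ) * cx b =
          ((vp B Y : Polynomial ℂ) : PowerSeries ℂ) * cx a + ((-vp A Y : Polynomial ℂ) : PowerSeries ℂ) * cx b := by
        rw [sub_eq_add_neg, ← neg_mul]
        congr 2
      rw [e1, Pool.Agent.Y120.GH.ou_add hK0 (Subring.mul_mem _ (Pool.Agent.Y120.GH.poly_mem _) (ou_aeval hK hs A).1)
        (Subring.mul_mem _ (Pool.Agent.Y120.GH.poly_mem _) (ou_aeval hK hs B).1) ht,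
        Pool.Agent.Y120.GH.ou_mul hK0 (Pool.Agent.Y120.GH.poly_mem _) (ou_aeval hK hs A).1 ht,
        Pool.Agent.Y120.GH.ou_mul hK0 (Pool.Agent.Y120.GH.poly_mem _) (ou_aeval hK hs B).1 ht,
        Pool.Agent.Y120.GH.ou_poly, Pool.Agent.Y120.GH.ou_poly, hval A t ht, hval B t ht]
      have h1 := congrArg (Polynomial.eval (1 / t)) (hpoly _ (Mt_iso hQ hK hs ht) Y hYi)
      rw [Polynomial.eval_mul, Polynomial.eval_mul] at h1
      rw [Polynomial.eval_neg]
      linear_combination h1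
  -- descent
  have hdep : ¬ LinearIndependent (Polynomial ℚ) (![a, b] : Fin 2 → ℚ⟦X⟧) := by
    intro hli
    have h1 := Pool.Agent.Y120.GH.li_cx hli ![vp B Y, -vp A Y] (by
      rw [Fin.sum_univ_two]
      simp only [Matrix.cons_val_zero, Matrix.cons_val_one]
      have e1 : ((-vp A Y : Polynomial ℂ) : PowerSeries ℂ) = -((vp A Y : Polynomial ℂ) : PowerSeries ℂ) := by simp
      rw [e1, hrel]
      ring) 0
    exact hY h1
  rw [Fintype.not_linearIndependent_iff] at hdep
  obtain ⟨c, hc, i, hi⟩ := hdep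
  rw [Fin.sum_univ_two] at hc
  simp only [Matrix.cons_val_zero, Matrix.cons_val_one] at hc
  rw [Algebra.smul_def, Algebra.smul_def] at hc
  have hc0 : c 0 ≠ 0 := by
    intro h0
    rw [h0, map_zero, zero_mul, zero_add] at hc
    have h1 := (mul_eq_zero.1 hc).resolve_right hB
    have h2 : c 1 = 0 := Pool.Agent.Y118.UL.ps_inj (by rw [h1, map_zero])
    fin_cases i
    · exact hi h0
    · exact hi h2
  refine ⟨-c 1, c 0, hc0, ?_⟩
  have hc0' : algebraMap (Polynomial ℚ) (FractionRing ℚ⟦X⟧) (c 0) ≠ 0 := by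
    rw [IsScalarTower.algebraMap_apply (Polynomial ℚ) ℚ⟦X⟧ (FractionRing ℚ⟦X⟧)]
    intro h0
    have h1 : algebraMap (Polynomial ℚ) ℚ⟦X⟧ (c 0) = 0 := hinj (by rw [← hφ] at h0; rw [h0, map_zero])
    exact hc0 (Pool.Agent.Y118.UL.ps_inj (by rw [h1, map_zero]))
  rw [div_eq_div_iff hB0 hc0']
  have h3 := congrArg φ hc
  rw [map_add, map_mul, map_mul, map_zero, ← IsScalarTower.algebraMap_apply (Polynomial ℚ) ℚ⟦X⟧ (FractionRing ℚ⟦X⟧),
    ← IsScalarTower.algebraMap_apply (Polynomial ℚ) ℚ⟦X⟧ (FractionRing ℚ⟦X⟧)] at h3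
  rw [map_neg]
  linear_combination h3

end Pool.Agent.Q189.HG
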