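import Pool.Agent.Q189.HG.Conn

/-!
# Near relations between the periods of hypergeometric families
-/

set_option autoImplicit false

open PowerSeries

namespace Pool.Agent.Q189.HG

open Pool.Agent.Y119.HY (QD Am Jm cm Hf Hc tv om E)
open Pool.Agent.Y119.HZ (Hp hf ix evq isom_inv isom_mul)
open Pool.Agent.Y113 (SDc)
open Pool.Agent.Y120.GH (cx Cw ou)
open Pool.Agent.Y916.Sl Pool.Agent.Y916.Al Pool.Agent.Q189.MF

variable {k : ℕ} {n : Fin k → ℕ}

/-- the point with the coordinates `l_j` and the entries of the `X_j` -/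
def pnt (l : Fin k → ℂ) (X : ∀ j, Matrix (Fin (n j)) (Fin (n j)) ℂ) : (Σ j : Fin k, Option (Fin (n j) × Fin (n j))) → ℂ
  | ⟨j, none⟩ => l j
  | ⟨j, some p⟩ => X j p.1 p.2

/-- the change of the coordinates -/
noncomputable def phi (y : (Σ j : Fin k, Option (Fin (n j * n j))) → ℂ) :
    (Σ j : Fin k, Option (Fin (n j) × Fin (n j))) → ℂ :=
  pnt (fun j => y ⟨j, none⟩) fun j => (Matrix.of fun a b => y ⟨j, some ((ix (n j)).symm (a, b))⟩) *
    E (cm (Am (n j))) (-y ⟨j, none⟩)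

/-- the inverse -/
noncomputable def psi (l : Fin k → ℂ) (X : ∀ j, Matrix (Fin (n j)) (Fin (n j)) ℂ) :
    (Σ j : Fin k, Option (Fin (n j * n j))) → ℂ
  | ⟨j, none⟩ => l j
  | ⟨j, some e⟩ => (X j * E (cm (Am (n j))) (l j)) (ix (n j) e).1 (ix (n j) e).2

lemma phi_psi (l : Fin k → ℂ) (X : ∀ j, Matrix (Fin (n j)) (Fin (n j)) ℂ) : phi (psi l X) = pnt l X := by
  have h1 : ∀ j, (Matrix.of fun a b => psi l X ⟨j, some ((ix (n j)).symm (a, b))⟩) = X j * E (cm (Am (n j))) (l j) := by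
    intro j
    ext a b
    rw [Matrix.of_apply]
    show (X j * E (cm (Am (n j))) (l j)) (ix (n j) ((ix (n j)).symm (a, b))).1 (ix (n j) ((ix (n j)).symm (a, b))).2 = _
    rw [Equiv.apply_symm_apply]
  unfold phi
  simp only [h1]
  have h2 : ∀ j, X j * E (cm (Am (n j))) (l j) * E (cm (Am (n j))) (-psi l X ⟨j, none⟩) = X j := by
    intro j
    show X j * E (cm (Am (n j))) (l j) * E (cm (Am (n j))) (-l j) = X j
    rw [Matrix.mul_assoc, Pool.Agent.Y119.HY.E_mul_neg Pool.Agent.Y119.HY.Ac_nil, Matrix.mul_one]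
  simp only [h2]
  rfl

/-- the entries of the exponential -/
lemma E_apply (N : ℕ) (s : ℂ) (c b : Fin N) : E (cm (Am N)) s c b =
    ∑ l ∈ Finset.range N, if (b : ℕ) = c + l then s ^ l / (l.factorial : ℂ) else 0 := by
  unfold Pool.Agent.Y119.HY.E
  rw [Matrix.sum_apply]
  refine Finset.sum_congr rfl fun l _ => ?_
  rw [Matrix.smul_apply, ← Pool.Agent.Y119.HY.cm_pow, Pool.Agent.Y119.HY.cm_apply, Pool.Agent.Y119.HY.Am_pow, smul_eq_mul]
  split_ifs <;> simp

/-- the common denominator -/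
def FF (n : Fin k → ℕ) : ℕ := (∑ j, n j).factorial

lemma FF_dvd (j : Fin k) {l : ℕ} (hl : l < n j) : l.factorial ∣ FF n :=
  Nat.factorial_dvd_factorial (hl.le.trans (Finset.single_le_sum (f := n) (fun _ _ => Nat.zero_le _) (Finset.mem_univ j)))

/-- the polynomials of the change of the coordinates -/
noncomputable def SS (n : Fin k → ℕ) : (Σ j : Fin k, Option (Fin (n j) × Fin (n j))) →
    MvPolynomial (Σ j : Fin k, Option (Fin (n j * n j))) ℤ
  | ⟨j, none⟩ => MvPolynomial.C (FF n : ℤ) * MvPolynomial.X ⟨j, none⟩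
  | ⟨j, some p⟩ => ∑ c : Fin (n j), MvPolynomial.X ⟨j, some ((ix (n j)).symm (p.1, c))⟩ *
      ∑ l ∈ Finset.range (n j), if (p.2 : ℕ) = c + l then
        MvPolynomial.C ((FF n / l.factorial : ℕ) : ℤ) * (-MvPolynomial.X ⟨j, none⟩) ^ l else 0

lemma phi_none (y : (Σ j : Fin k, Option (Fin (n j * n j))) → ℂ) (j : Fin k) : phi y ⟨j, none⟩ = y ⟨j, none⟩ := rfl

lemma phi_some (y : (Σ j : Fin k, Option (Fin (n j * n j))) → ℂ) (j : Fin k) (p : Fin (n j) × Fin (n j)) :
    phi y ⟨j, some p⟩ = ∑ c, y ⟨j, some ((ix (n j)).symm (p.1, c))⟩ * E (cm (Am (n j))) (-y ⟨j, none⟩) c p.2 := rfl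

lemma SS_none (j : Fin k) : SS n ⟨j, none⟩ = MvPolynomial.C (FF n : ℤ) * MvPolynomial.X ⟨j, none⟩ := rfl

lemma SS_some (j : Fin k) (p : Fin (n j) × Fin (n j)) : SS n ⟨j, some p⟩ =
    ∑ c : Fin (n j), MvPolynomial.X ⟨j, some ((ix (n j)).symm (p.1, c))⟩ *
      ∑ l ∈ Finset.range (n j), if (p.2 : ℕ) = c + l then
        MvPolynomial.C ((FF n / l.factorial : ℕ) : ℤ) * (-MvPolynomial.X ⟨j, none⟩) ^ l else 0 := rfl

lemma phi_SS (y : (Σ j : Fin k, Option (Fin (n j * n j))) → ℂ) (v : Σ j : Fin k, Option (Fin (n j) × Fin (n j))) :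
    ((FF n : ℕ) : ℂ) * phi y v = MvPolynomial.aeval y (SS n v) := by
  obtain ⟨j, _ | p⟩ := v
  · rw [phi_none, SS_none, map_mul, MvPolynomial.aeval_C, MvPolynomial.aeval_X]
    simp
  · rw [phi_some, SS_some, Finset.mul_sum, map_sum]
    refine Finset.sum_congr rfl fun c _ => ?_
    rw [map_mul, MvPolynomial.aeval_X, E_apply, map_sum, mul_left_comm, Finset.mul_sum]
    congr 1
    refine Finset.sum_congr rfl fun l hl => ?_
    rw [Finset.mem_range] at hl
    split_ifs
    · rw [map_mul, MvPolynomial.aeval_C, map_pow, map_neg, MvPolynomial.aeval_X]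
      have h1 : ((FF n : ℕ) : ℂ) = ((FF n / l.factorial : ℕ) : ℂ) * (l.factorial : ℂ) := by
        rw [← Nat.cast_mul, Nat.div_mul_cancel (FF_dvd j hl)]
      have h2 : (l.factorial : ℂ) ≠ 0 := by exact_mod_cast Nat.factorial_ne_zero l
      rw [eq_intCast, Int.cast_natCast, h1]
      field_simp
    · rw [map_zero, mul_zero]

/-- bounds for the inverse -/
lemma norm_psi (l : Fin k → ℂ) (X : ∀ j, Matrix (Fin (n j)) (Fin (n j)) ℂ) :
    max 1 ‖psi l X‖ ≤ ((∑ j, n j : ℕ) + 1 : ℝ) ^ 2 * max 1 ‖pnt l X‖ ^ ((∑ j, n j) + 1) := by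
  set R : ℕ := ∑ j, n j with hR
  set M : ℝ := max 1 ‖pnt l X‖ with hM
  have hM1 : 1 ≤ M := le_max_left _ _
  have hM0 : 0 ≤ M := by linarith
  have hRn : (0 : ℝ) ≤ R := Nat.cast_nonneg R
  have hMR : M ≤ M ^ (R + 1) := le_self_pow₀ hM1 (by omega)
  have hR1 : (1 : ℝ) ≤ ((R : ℝ) + 1) ^ 2 := one_le_pow₀ (by linarith)
  have hpos : 1 ≤ ((R : ℝ) + 1) ^ 2 * M ^ (R + 1) := by
    calc (1 : ℝ) = 1 * 1 := by norm_num
      _ ≤ _ := mul_le_mul hR1 (one_le_pow₀ hM1) zero_le_one (by positivity)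
  refine max_le hpos ?_
  rw [pi_norm_le_iff_of_nonneg (by linarith)]
  have hl : ∀ j, ‖l j‖ ≤ M := fun j => (norm_le_pi_norm (pnt l X) ⟨j, none⟩).trans (le_max_right _ _)
  have hX : ∀ j a b, ‖X j a b‖ ≤ M := fun j a b => (norm_le_pi_norm (pnt l X) ⟨j, some (a, b)⟩).trans (le_max_right _ _)
  rintro ⟨j, _ | e⟩
  · show ‖l j‖ ≤ _
    refine (hl j).trans (hMR.trans ?_)
    exact le_mul_of_one_le_left (by positivity) hR1
  · show ‖(X j * E (cm (Am (n j))) (l j)) (ix (n j) e).1 (ix (n j) e).2‖ ≤ _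
    have hnj : n j ≤ R := Finset.single_le_sum (f := n) (fun _ _ => Nat.zero_le _) (Finset.mem_univ j)
    rw [Matrix.mul_apply]
    have h1 : ∀ c, ‖E (cm (Am (n j))) (l j) c (ix (n j) e).2‖ ≤ (R + 1) * M ^ R := by
      intro c
      rw [E_apply]
      refine (norm_sum_le _ _).trans ?_
      calc _ ≤ ∑ _l ∈ Finset.range (n j), M ^ R := by
            refine Finset.sum_le_sum fun i hi => ?_
            rw [Finset.mem_range] at hi
            split_ifs
            · rw [norm_div, norm_pow, Complex.norm_natCast]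
              have h2 : (1 : ℝ) ≤ (i.factorial : ℝ) := by exact_mod_cast Nat.one_le_iff_ne_zero.2 (Nat.factorial_ne_zero i)
              refine (div_le_self (by positivity) h2).trans ?_
              exact (pow_le_pow_left₀ (norm_nonneg _) (hl j) _).trans (pow_le_pow_right₀ hM1 (by omega))
            · rw [norm_zero]
              positivity
        _ = n j * M ^ R := by rw [Finset.sum_const, Finset.card_range, nsmul_eq_mul]
        _ ≤ (R + 1) * M ^ R := by
            refine mul_le_mul_of_nonneg_right ?_ (by positivity)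
            have : ((n j : ℕ) : ℝ) ≤ R := by exact_mod_cast hnj
            linarith
    refine (norm_sum_le _ _).trans ?_
    calc _ ≤ ∑ _c : Fin (n j), M * ((R + 1) * M ^ R) := by
          refine Finset.sum_le_sum fun c _ => ?_
          rw [norm_mul]
          exact mul_le_mul (hX _ _ _) (h1 c) (norm_nonneg _) hM0
      _ = n j * (M * ((R + 1) * M ^ R)) := by
          rw [Finset.sum_const, Finset.card_univ, Fintype.card_fin, nsmul_eq_mul]
      _ ≤ (R + 1) * (M * ((R + 1) * M ^ R)) := by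
          refine mul_le_mul_of_nonneg_right ?_ (by positivity)
          have : ((n j : ℕ) : ℝ) ≤ R := by exact_mod_cast hnj
          linarith
      _ = _ := by ring

/-- the solution matrix at `1 / α`, for the determination `ℓ` of `log α` -/
noncomputable def Ym (n : ℕ) (Q : Polynomial ℚ) (α ℓ : ℂ) : Matrix (Fin n) (Fin n) ℂ :=
  Mt n Q α * E (cm (Am n)) (-ℓ)

end Pool.Agent.Q189.HG
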