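import Pool.Agent.Q189.MF.Conv
import Pool.Agent.Y119.HY.Fin2

/-!
# Hypergeometric families: the fibres contain the symplectic group
-/

set_option autoImplicit false

open PowerSeries

namespace Pool.Agent.Q189.HG

open Pool.Agent.Y119.HY (QD Am Jm cm Hf Hc)
open Pool.Agent.Y119.HZ (Hp hf ix evq isom_inv isom_mul)
open Pool.Agent.Y113 (SDc)
open Pool.Agent.Y120.GH (cx Cw ou)

variable {n : ℕ} {Q : Polynomial ℚ}

theorem size_hf (hH : ∀ i j, SDc (Hp n Q i j)) :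
    ∃ C : ℝ, 1 ≤ C ∧ ∀ i m, |((coeff m (hf n Q i) : ℚ) : ℝ)| ≤ C ^ (m + 1) := by
  obtain ⟨C, hC, hs, -⟩ := Pool.Agent.Y119.HY.SDc.unif (y := fun p : Fin n × Fin n => Hp n Q p.1 p.2) fun p => hH p.1 p.2
  exact ⟨C, hC, fun i m => hs (ix n i) m⟩

theorem gfs_hf (hQ : QD n Q) (hH : ∀ i j, SDc (Hp n Q i j)) :
    ∃ (T : Polynomial ℤ) (A : Fin (n * n) → Fin (n * n) → Polynomial ℤ), Pool.Agent.Y916.Af.GFs T A (hf n Q) := by
  obtain ⟨D, b, hD, hb⟩ := Pool.Agent.Y119.HZ.exists_b n Q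
  obtain ⟨q, C, hG⟩ := Pool.Agent.Y119.HZ.gsys_Hp hQ hH hb
  have hG' := hG.reindex (ix n)
  have hT : Polynomial.X * Pool.Agent.Y119.HZ.T1 D ≠ 0 := by
    refine mul_ne_zero Polynomial.X_ne_zero (mul_ne_zero (Polynomial.C_ne_zero.2 (by exact_mod_cast hD)) ?_)
    intro h0
    have := congrArg (Polynomial.eval 0) h0
    simp at this
  refine ⟨Polynomial.X * Pool.Agent.Y119.HZ.T1 D, fun a c => Pool.Agent.Y119.HZ.A2 n D b (ix n a) (ix n c), hT,
    fun i => ?_, ?_, ⟨q, C, hG'⟩, Pool.Agent.Y119.HZ.qu_hf hQ hH hb⟩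
  · have h1 := Pool.Agent.Y119.HZ.ode_A2 hQ hb (ix n i)
    have h2 : ∑ j : Fin (n * n), Pool.Agent.Y113.ps (Pool.Agent.Y119.HZ.A2 n D b (ix n i) (ix n j)) * hf n Q j =
        ∑ q, Pool.Agent.Y113.ps (Pool.Agent.Y119.HZ.A2 n D b (ix n i) q) * Hp n Q q.1 q.2 :=
      Equiv.sum_comp (ix n) fun q => Pool.Agent.Y113.ps (Pool.Agent.Y119.HZ.A2 n D b (ix n i) q) * Hp n Q q.1 q.2
    exact h1.trans h2.symm
  · obtain ⟨C, -, h⟩ := size_hf hH
    exact ⟨C, h⟩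

/-- the matrix of the values at `1 / t` -/
noncomputable def Mt (n : ℕ) (Q : Polynomial ℚ) (t : ℂ) : Matrix (Fin n) (Fin n) ℂ := Matrix.of fun i j => ou (cx (Hp n Q i j)) t

/-- the isometries -/
def Iso (n : ℕ) (Q : Polynomial ℚ) : Set (Matrix (Fin n) (Fin n) ℂ) := {X | X.transpose * cm (Jm n Q) * X = cm (Jm n Q)}

lemma Mt_eq (z : ℂ) : Mt n Q (1 / z) = Hf (Hc n Q) z := by
  ext i j
  unfold Mt Hf
  rw [Matrix.of_apply, Matrix.of_apply]
  unfold Pool.Agent.Y120.GH.ou Pool.Agent.Y120.GH.inn Pool.Agent.Y119.HY.ps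
  rw [one_div_one_div]
  refine tsum_congr fun m => ?_
  rw [Pool.Agent.Y120.GH.coeff_cx]
  have h2 : coeff m (Hp n Q i j) = Pool.Agent.Y119.HY.Hq n Q m i j :=
    congrFun (congrFun (Pool.Agent.Y119.HZ.cf_Hp (Q := Q) m) i) j
  rw [h2]
  rfl

lemma mem_Cw {K : ℝ} (hC : 1 ≤ K) (hs : ∀ i m, |((coeff m (hf n Q i) : ℚ) : ℝ)| ≤ K ^ (m + 1)) (i j : Fin n) :
    cx (Hp n Q i j) ∈ Cw K := by
  refine Pool.Agent.Y120.GH.cx_mem (by linarith) fun m => ?_
  have h1 := hs ((ix n).symm (i, j)) m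
  unfold Pool.Agent.Y119.HZ.hf at h1
  rw [Equiv.apply_symm_apply] at h1
  exact h1

/-- evaluation of the polynomials in the functions -/
theorem ou_aeval {K : ℝ} (hC : 1 ≤ K) (hs : ∀ i m, |((coeff m (hf n Q i) : ℚ) : ℝ)| ≤ K ^ (m + 1))
    (R : MvPolynomial (Fin (n * n)) (Polynomial ℚ)) :
    cx (MvPolynomial.aeval (hf n Q) R) ∈ Cw K ∧ ∀ t : ℂ, K < ‖t‖ → ou (cx (MvPolynomial.aeval (hf n Q) R)) t =
      MvPolynomial.eval₂ (evq (1 / t)) (fun a => Mt n Q t (ix n a).1 (ix n a).2) R := by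
  have hC0 : 0 ≤ K := by linarith
  induction R using MvPolynomial.induction_on with
  | C p =>
    have h1 : MvPolynomial.aeval (hf n Q) (MvPolynomial.C p) = (p : ℚ⟦X⟧) := by
      rw [MvPolynomial.aeval_C, PowerSeries.algebraMap_apply']
      simp
    rw [h1]
    refine ⟨by rw [Pool.Agent.Y120.GH.cx_poly]; exact Pool.Agent.Y120.GH.poly_mem _, fun t ht => ?_⟩
    rw [Pool.Agent.Y120.GH.cx_poly, Pool.Agent.Y120.GH.ou_poly, MvPolynomial.eval₂_C, Polynomial.eval_map]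
    rfl
  | add p q hp hq =>
    rw [map_add, map_add]
    refine ⟨Subring.add_mem _ hp.1 hq.1, fun t ht => ?_⟩
    rw [Pool.Agent.Y120.GH.ou_add hC0 hp.1 hq.1 ht, MvPolynomial.eval₂_add, hp.2 t ht, hq.2 t ht]
  | mul_X p j hp =>
    have h1 := mem_Cw hC hs (ix n j).1 (ix n j).2
    rw [map_mul, map_mul, MvPolynomial.aeval_X]
    refine ⟨Subring.mul_mem _ hp.1 h1, fun t ht => ?_⟩
    have h2 : cx (hf n Q j) = cx (Hp n Q (ix n j).1 (ix n j).2) := rfl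
    rw [h2, Pool.Agent.Y120.GH.ou_mul hC0 hp.1 h1 ht, MvPolynomial.eval₂_mul, hp.2 t ht, MvPolynomial.eval₂_X]
    rfl

/-- the values preserve the form -/
theorem Mt_iso (hQ : QD n Q) {K : ℝ} (hC : 1 ≤ K) (hs : ∀ i m, |((coeff m (hf n Q i) : ℚ) : ℝ)| ≤ K ^ (m + 1)) {t : ℂ}
    (ht : K < ‖t‖) : Mt n Q t ∈ Iso n Q := by
  classical
  have hC0 : 0 ≤ K := by linarith
  have h1 := Pool.Agent.Y119.HZ.form_Hp hQ
  show (Mt n Q t).transpose * cm (Jm n Q) * Mt n Q t = cm (Jm n Q)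
  ext i j
  have h2 := congrArg (fun M : Matrix (Fin n) (Fin n) ℚ⟦X⟧ => ou (cx (M i j)) t) h1
  simp only [Matrix.mul_apply, Matrix.transpose_apply, Pool.Agent.Y119.HZ.km_apply, Finset.sum_mul] at h2
  have h3 : ∀ c d : Fin n, cx (Hp n Q d i * C (Jm n Q d c) * Hp n Q c j) =
      cx (Hp n Q d i) * C ((Jm n Q d c : ℚ) : ℂ) * cx (Hp n Q c j) := by
    intro c d
    rw [map_mul, map_mul, Pool.Agent.Y120.GH.cx_C]
  have h4 : ∀ c d : Fin n, cx (Hp n Q d i) * C ((Jm n Q d c : ℚ) : ℂ) ∈ Cw K := fun c d =>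
    Subring.mul_mem _ (mem_Cw hC hs d i) (Pool.Agent.Y120.GH.C_mem _)
  have h5 : ∀ c d : Fin n, ou (cx (Hp n Q d i * C (Jm n Q d c) * Hp n Q c j)) t =
      Mt n Q t d i * ((Jm n Q d c : ℚ) : ℂ) * Mt n Q t c j := by
    intro c d
    rw [h3, Pool.Agent.Y120.GH.ou_mul hC0 (h4 c d) (mem_Cw hC hs c j) ht,
      Pool.Agent.Y120.GH.ou_mul hC0 (mem_Cw hC hs d i) (Pool.Agent.Y120.GH.C_mem _) ht, Pool.Agent.Y120.GH.ou_C]
    rfl
  rw [map_sum, Pool.Agent.Y120.GH.ou_sum hC0 _ (fun c _ => by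
    rw [map_sum]
    refine Subring.sum_mem _ fun d _ => ?_
    rw [h3]
    exact Subring.mul_mem _ (h4 c d) (mem_Cw hC hs c j)) ht] at h2
  have h6 : ∀ c, ou (cx (∑ d, Hp n Q d i * C (Jm n Q d c) * Hp n Q c j)) t =
      ∑ d, Mt n Q t d i * ((Jm n Q d c : ℚ) : ℂ) * Mt n Q t c j := by
    intro c
    rw [map_sum, Pool.Agent.Y120.GH.ou_sum hC0 _ (fun d _ => by
      rw [h3]
      exact Subring.mul_mem _ (h4 c d) (mem_Cw hC hs c j)) ht]
    exact Finset.sum_congr rfl fun d _ => h5 c d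
  simp only [h6] at h2
  rw [Pool.Agent.Y120.GH.cx_C, Pool.Agent.Y120.GH.ou_C] at h2
  rw [Matrix.mul_apply]
  simp only [Matrix.mul_apply, Matrix.transpose_apply, Finset.sum_mul]
  exact h2

/-- **the fibres contain the symplectic group** -/
theorem iso_sub_Vc (hQ : QD n Q) {K : ℝ} (hC : 1 ≤ K) (hs : ∀ i m, |((coeff m (hf n Q i) : ℚ) : ℝ)| ≤ K ^ (m + 1))
    {X : Matrix (Fin n) (Fin n) ℂ} (hX : X ∈ Iso n Q) (x : ℂ) :
    (fun a => X (ix n a).1 (ix n a).2) ∈ Pool.Agent.Y916.Af.Vc (hf n Q) x := by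
  intro R hR
  set p : Polynomial ℂ := MvPolynomial.eval₂ (Polynomial.mapRingHom (algebraMap ℚ ℂ))
    (fun a => Polynomial.C (X (ix n a).1 (ix n a).2)) R with hp
  have hpe : ∀ z : ℂ, p.eval z = MvPolynomial.eval₂ (evq z) (fun a => X (ix n a).1 (ix n a).2) R := by
    intro z
    rw [hp, ← Polynomial.coe_evalRingHom, MvPolynomial.hom_eval₂]
    have h1 : (Polynomial.evalRingHom z).comp (Polynomial.mapRingHom (algebraMap ℚ ℂ)) = evq z := by
      refine Polynomial.ringHom_ext (fun a => ?_) ?_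
      · simp [Pool.Agent.Y119.HZ.evq]
      · simp [Pool.Agent.Y119.HZ.evq]
    rw [h1]
    congr 1
    funext a
    simp
  have h0 : p = 0 := by
    refine Polynomial.eq_zero_of_infinite_isRoot p (Set.Infinite.mono (s := (fun m : ℕ => (1 / ((m : ℂ) + K + 1))) '' Set.univ)
      ?_ ?_)
    · rintro _ ⟨m, -, rfl⟩
      show p.eval (1 / ((m : ℂ) + K + 1)) = 0
      rw [hpe]
      set y : ℝ := 1 / ((m : ℝ) + K + 1) with hy
      have hm : (0 : ℝ) ≤ m := Nat.cast_nonneg m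
      have hy0 : 0 < y := by positivity
      have hy1 : y < 1 := by
        rw [hy, div_lt_one (by positivity)]
        linarith
      have hyc : (1 / ((m : ℂ) + K + 1)) = ((y : ℝ) : ℂ) := by rw [hy]; push_cast; rfl
      rw [hyc]
      have hMt := Mt_iso hQ hC hs (t := 1 / (y : ℂ)) (by
        rw [norm_div, norm_one, Complex.norm_real, Real.norm_of_nonneg hy0.le, hy, one_div_one_div]
        linarith)
      obtain ⟨W, hW1, hW2, hW3⟩ := isom_inv (Pool.Agent.Y119.HY.Jc_det hQ) hMt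
      have h1 := Pool.Agent.Y119.HZ.rel_inv hQ hR hy0 hy1 (isom_mul hW3 hX)
      rw [← Mt_eq, ← Matrix.mul_assoc, hW1, Matrix.one_mul] at h1
      exact h1
    · rw [Set.image_univ]
      refine Set.infinite_range_of_injective fun a b hab => ?_
      have h1 : ∀ m : ℕ, ((m : ℂ) + K + 1) ≠ 0 := by
        intro m h0
        have h2 : (((m : ℝ) + K + 1 : ℝ) : ℂ) = 0 := by push_cast; exact h0
        have h3 := Complex.ofReal_eq_zero.1 h2
        have hm : (0 : ℝ) ≤ m := Nat.cast_nonneg m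
        linarith
      have h2 := h1 a
      have h3 := h1 b
      beta_reduce at hab
      rw [div_eq_div_iff h2 h3, one_mul, one_mul] at hab
      have h4 : (b : ℂ) = a := by linear_combination hab
      exact_mod_cast h4.symm
  have h1 := hpe x
  rw [h0, Polynomial.eval_zero] at h1
  exact h1.symm

end Pool.Agent.Q189.HG
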