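import Pool.Agent.Q189.HG.Fin

/-!
# Near relations between the periods of hypergeometric families at almost all tuples of algebraic points
-/

set_option autoImplicit false

open PowerSeries

namespace Pool.Agent.Q189.HG

open Pool.Agent.Y119.HY (QD Am Jm cm Hf Hc tv om E)
open Pool.Agent.Y119.HZ (Hp hf ix evq isom_inv isom_mul)
open Pool.Agent.Y113 (SDc)
open Pool.Agent.Y120.GH (cx Cw ou)
open Pool.Agent.Y916.Sl Pool.Agent.Y916.Al Pool.Agent.Q189.MF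

variable {k : ℕ} {n : Fin k → ℕ}

/-- the measure of algebraic independence and the transfer of near relations -/
def GdH {g : ℕ} (n : Fin k → ℕ) (Q : Fin k → Polynomial ℚ) (d B : ℕ) (ζ : Fin g → ℂ) (α : Fin k → ℂ) (H : ℝ) : Prop :=
  ∀ ℓ : Fin k → ℂ, (∀ j, Complex.exp (ℓ j) = α j) → (∀ j, ‖ℓ j‖ ≤ H) →
    (∀ P : MvPolynomial ((Σ j : Fin k, Option (Fin (n j) × Fin (n j))) ⊕ Fin k) ℤ, P.totalDegree ≤ d →
      (∀ e, |((P.coeff e : ℤ) : ℝ)| ≤ H) →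
      (∃ (l : Fin k → ℂ) (X : ∀ j, Matrix (Fin (n j)) (Fin (n j)) ℂ), (∀ j, X j ∈ Iso (n j) (Q j)) ∧
        MvPolynomial.aeval (Sum.elim (pnt l X) α) P ≠ 0) →
      1 ≤ H ^ B * ‖MvPolynomial.aeval (Sum.elim (pnt ℓ fun j => Ym (n j) (Q j) (α j) (ℓ j)) α) P‖) ∧
    ∀ P : MvPolynomial ((Σ j : Fin k, Option (Fin (n j) × Fin (n j))) ⊕ (Fin g ⊕ Fin k)) ℤ, P.totalDegree ≤ d →
      (∀ e, |((P.coeff e : ℤ) : ℝ)| ≤ H) →
      ∀ (l : Fin k → ℂ) (X : ∀ j, Matrix (Fin (n j)) (Fin (n j)) ℂ), (∀ j, X j ∈ Iso (n j) (Q j)) →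
      ‖MvPolynomial.aeval (Sum.elim (pnt l X) (Sum.elim ζ α)) P‖ ≤ (H * max 1 ‖pnt l X‖) ^ B *
        ‖MvPolynomial.aeval (Sum.elim (pnt ℓ fun j => Ym (n j) (Q j) (α j) (ℓ j)) (Sum.elim ζ α)) P‖

lemma GdH.mono {g : ℕ} {Q : Fin k → Polynomial ℚ} {d B : ℕ} {ζ : Fin g → ℂ} {α : Fin k → ℂ} {H H' : ℝ} (h1 : 1 ≤ H)
    (h2 : H ≤ H') (h3 : H' ≤ H ^ 2) (hg : GdH n Q d B ζ α H') : GdH n Q d (2 * B) ζ α H := by
  intro ℓ hℓ hℓH
  obtain ⟨g1, g2⟩ := hg ℓ hℓ fun j => (hℓH j).trans h2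
  refine ⟨fun P hd hH hy => ?_, fun P hd hH l X hX => ?_⟩
  · refine (g1 P hd (fun e => (hH e).trans h2) hy).trans ?_
    refine mul_le_mul_of_nonneg_right ?_ (norm_nonneg _)
    rw [pow_mul]
    exact pow_le_pow_left₀ (by linarith) h3 _
  · refine (g2 P hd (fun e => (hH e).trans h2) l X hX).trans ?_
    refine mul_le_mul_of_nonneg_right ?_ (norm_nonneg _)
    rw [pow_mul]
    have h4 : 1 ≤ max 1 ‖pnt l X‖ := le_max_left _ _
    refine pow_le_pow_left₀ (mul_nonneg (by linarith) (by positivity)) ?_ _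
    calc H' * max 1 ‖pnt l X‖ ≤ H ^ 2 * max 1 ‖pnt l X‖ := mul_le_mul_of_nonneg_right h3 (by positivity)
      _ ≤ H ^ 2 * max 1 ‖pnt l X‖ ^ 2 := mul_le_mul_of_nonneg_left (le_self_pow₀ h4 (by norm_num)) (by positivity)
      _ = _ := by ring

lemma phi_ptD (Q : Fin k → Polynomial ℚ) (α ℓ : Fin k → ℂ) :
    phi (ptD (r := fun j => n j * n j) (fun j => hf (n j) (Q j)) α ℓ) = pnt ℓ fun j => Ym (n j) (Q j) (α j) (ℓ j) := by
  have h1 : ∀ j, (Matrix.of fun a b => ptD (r := fun j => n j * n j) (fun j => hf (n j) (Q j)) α ℓ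
      ⟨j, some ((ix (n j)).symm (a, b))⟩) = Mt (n j) (Q j) (α j) := by
    intro j
    ext a b
    rw [Matrix.of_apply]
    show evc (1 / α j) (hf (n j) (Q j) ((ix (n j)).symm (a, b))) = ou (cx (Hp (n j) (Q j) a b)) (α j)
    unfold Pool.Agent.Y119.HZ.hf
    rw [Equiv.apply_symm_apply]
    unfold Pool.Agent.Y120.GH.ou Pool.Agent.Y120.GH.inn Pool.Agent.Y916.Al.evc
    refine tsum_congr fun m => ?_
    rw [Pool.Agent.Y120.GH.coeff_cx]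
  unfold phi
  simp only [h1]
  rfl

theorem main (Q : Fin k → Polynomial ℚ) (hQ : ∀ j, QD (n j) (Q j)) (hH : ∀ j a b, SDc (Hp (n j) (Q j) a b))
    (g m d : ℕ) (hm : 1 ≤ m) : ∃ (B : ℕ) (C c : ℝ), 0 < c ∧ ∀ T : ℕ, 1 ≤ T →
    (∃ H₀ : ℝ, ∀ H₁ : ℝ, H₀ ≤ H₁ → ∀ ζ : Fin g → ℂ,
      (({x : Fin k → ℂ | (∀ j, SInt m T (x j)) ∧ ¬ ∀ H : ℝ, H₁ ≤ H → H ≤ H₁ ^ Real.exp ((T : ℝ) ^ c) →
        GdH n Q d B ζ x H}.ncard : ℕ) : ℝ) ≤ C * (T : ℝ) ^ (-c) * (({ξ : ℂ | SInt m T ξ}.ncard : ℕ) : ℝ) ^ k) ∧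
    ∀ ζ : Fin g → ℂ, (({x : Fin k → ℂ | (∀ j, SInt m T (x j)) ∧ ¬ ∀ N₀ : ℕ, ∃ N, N₀ ≤ N ∧
      (({j : ℕ | j < N ∧ ¬ ∀ H : ℝ, 2 ^ (2 ^ j) ≤ H → H ≤ 2 ^ (2 ^ (j + 1)) → GdH n Q d B ζ x H}.ncard : ℕ) : ℝ) ≤
          (T : ℝ) ^ (-c) * N}.ncard : ℕ) : ℝ) ≤ C * (T : ℝ) ^ (-c) * (({ξ : ℂ | SInt m T ξ}.ncard : ℕ) : ℝ) ^ k := by
  classical
  choose K hK hs using fun j => size_hf (hH j)
  choose T₀ A₀ hgfs using fun j => gfs_hf (hQ j) (hH j)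
  obtain ⟨D, hconv⟩ := conv (r := fun j => n j * n j) (fun j => hf (n j) (Q j)) phi (SS n) (FF n)
    (Nat.one_le_iff_ne_zero.2 (Nat.factorial_ne_zero _)) (fun y v => phi_SS y v) g d
  refine torD (r := fun j => n j * n j) (h := fun j => hf (n j) (Q j)) (fun j => Pool.Agent.Q246.AF.t_famN (hgfs j))
    (fun j => ⟨K j, hs j⟩) (fun j => conn_hf (hQ j) (hH j)) g m D 2 0 hm (by norm_num) (fun ζ => ζ)
    (fun B ζ x H => GdH n Q d B ζ x H) (fun B₀ => ?_) (fun B ζ x H H' h1 h2 h3 hg => hg.mono h1 h2 h3)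
  obtain ⟨B, H₀, hB⟩ := hconv B₀
  set R : ℕ := ∑ j, n j with hR
  refine ⟨(R + 2) * B, fun T _ => ⟨max (max H₀ 1) (((R : ℝ) + 1) ^ 2), fun ζ α H hHH _ _ hg => ?_⟩⟩
  have hH1 : 1 ≤ H := (le_max_right _ _).trans ((le_max_left _ _).trans hHH)
  have hH2 : H₀ ≤ H := (le_max_left _ _).trans ((le_max_left _ _).trans hHH)
  have hH3 : ((R : ℝ) + 1) ^ 2 ≤ H := (le_max_right _ _).trans hHH
  have hv := hB ζ α H hH2 hg
  intro ℓ hℓ hℓH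
  obtain ⟨v1, v2⟩ := hv ℓ hℓ hℓH
  rw [phi_ptD] at v1 v2
  have hfib : ∀ (l : Fin k → ℂ) (X : ∀ j, Matrix (Fin (n j)) (Fin (n j)) ℂ), (∀ j, X j ∈ Iso (n j) (Q j)) →
      psi l X ∈ FibD (r := fun j => n j * n j) (fun j => hf (n j) (Q j)) fun j => 1 / α j := by
    intro l X hX j
    exact iso_sub_Vc (hQ j) (hK j) (hs j) (isom_mul (hX j) (Pool.Agent.Y119.HY.E_isom Pool.Agent.Y119.HY.Ac_nil
      Pool.Agent.Y119.HY.Jc_rel (l j))) (1 / α j)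
  refine ⟨fun P hP hPH hex => ?_, fun P hP hPH l X hX => ?_⟩
  · obtain ⟨l, X, hX, hne⟩ := hex
    have h1 := v1 P hP hPH ⟨psi l X, hfib l X hX, by rw [phi_psi]; exact hne⟩
    refine h1.trans (mul_le_mul_of_nonneg_right (pow_le_pow_right₀ hH1 ?_) (norm_nonneg _))
    exact Nat.le_mul_of_pos_left _ (by omega)
  · have h1 := v2 P hP hPH (psi l X) (hfib l X hX)
    rw [phi_psi] at h1
    refine h1.trans (mul_le_mul_of_nonneg_right ?_ (norm_nonneg _))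
    set M : ℝ := max 1 ‖pnt l X‖ with hM
    have hM1 : 1 ≤ M := le_max_left _ _
    have h2 := norm_psi (n := n) l X
    have h3 : H * max 1 ‖psi l X‖ ≤ (H * M) ^ (R + 2) := by
      calc H * max 1 ‖psi l X‖ ≤ H * (((R : ℝ) + 1) ^ 2 * M ^ (R + 1)) := by
            refine mul_le_mul_of_nonneg_left ?_ (by linarith)
            exact h2
        _ ≤ H * (H * M ^ (R + 1)) := by
            refine mul_le_mul_of_nonneg_left ?_ (by linarith)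
            exact mul_le_mul_of_nonneg_right hH3 (by positivity)
        _ = H ^ 2 * M ^ (R + 1) := by ring
        _ ≤ H ^ (R + 2) * M ^ (R + 2) := by
            refine mul_le_mul (pow_le_pow_right₀ hH1 (by omega)) (pow_le_pow_right₀ hM1 (by omega)) (by positivity)
              (by positivity)
        _ = (H * M) ^ (R + 2) := by rw [mul_pow]
    calc (H * max 1 ‖psi l X‖) ^ B ≤ ((H * M) ^ (R + 2)) ^ B := pow_le_pow_left₀ (by positivity) h3 _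
      _ = (H * M) ^ ((R + 2) * B) := by rw [← pow_mul]

end Pool.Agent.Q189.HG
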